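import Mathlib
import Pool.Agent.Helper72.GP.Goals

/-!
Project GP, packet KZL.
-/

set_option autoImplicit false

namespace Pool.Agent.Helper86.GP

open Pool.Agent.Helper72.GP

open Finset Polynomial
open scoped Polynomial.Bivariate Classical

/-- Packet KZL. -/
theorem kzl : KZL := by
  intro N H R M L e H2 a b x y z ω hP hT hab hx hy hz i
  haveI : NeZero R := ⟨hP.hR.ne_zero⟩
  obtain ⟨ha, hb, -, h1, h2⟩ := hT
  have hUx : UU ω.1 x i < L := hx.1 i
  have hUy : UU ω.1 y i < L := hy.1 i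
  have hUz : UU ω.1 z i < L := hz.1 i
  have hc : ∀ p : Pt, ((UU ω.1 p i : ℕ) : ZMod R) = lin (ω.1 i) p := by
    intro p
    exact ZMod.natCast_zmod_val _
  have h1' : (b : ZMod R) * (x.1 : ZMod R) + a * (z.1 : ZMod R) = (a + b) * (y.1 : ZMod R) := by
    have := congrArg (fun t : ℤ => (t : ZMod R)) h1
    push_cast at this
    exact this
  have h2' : (b : ZMod R) * (x.2 : ZMod R) + a * (z.2 : ZMod R) = (a + b) * (y.2 : ZMod R) := by
    have := congrArg (fun t : ℤ => (t : ZMod R)) h2
    push_cast at this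
    exact this
  have key : ((b * UU ω.1 x i + a * UU ω.1 z i : ℕ) : ZMod R) =
      (((a + b) * UU ω.1 y i : ℕ) : ZMod R) := by
    push_cast
    rw [hc, hc, hc]
    unfold lin
    linear_combination (ω.1 i).1 * h1' + (ω.1 i).2.1 * h2'
  rw [ZMod.natCast_eq_natCast_iff] at key
  have hR : H * L ≤ R := hP.hLR
  have hm : (a + b) * L ≤ R := le_trans (Nat.mul_le_mul_right L hab) hR
  refine Nat.ModEq.eq_of_lt_of_lt key ?_ ?_
  · have e1 : b * UU ω.1 x i < b * L := Nat.mul_lt_mul_of_pos_left hUx hb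
    have e2 : a * UU ω.1 z i < a * L := Nat.mul_lt_mul_of_pos_left hUz ha
    have e3 : (a + b) * L = a * L + b * L := add_mul a b L
    omega
  · exact lt_of_lt_of_le (Nat.mul_lt_mul_of_pos_left hUy (by omega)) hm

end Pool.Agent.Helper86.GP
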