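import Pool.Agent.Helper89.GP.GoalsB

/-!
# GP-XYN: few maps are not injective
-/

namespace Pool.Agent.Helper86.GP

open Finset Pool.Agent.Helper89.GP

theorem card_pair {n N : ℕ} (a b : Fin n) (hab : a ≠ b) :
    (univ.filter fun f : Fin n → Fin N => f a = f b).card * N ≤ N ^ n := by
  classical
  have h1 : ((univ.filter fun f : Fin n → Fin N => f a = f b) ×ˢ (univ : Finset (Fin N))).card ≤
      (univ : Finset (Fin n → Fin N)).card := by
    refine Finset.card_le_card_of_injOn (fun p => Function.update p.1 b p.2)
      (fun _ _ => Finset.mem_coe.2 (mem_univ _)) ?_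
    rintro ⟨f, k⟩ hf ⟨g, l⟩ hg h
    have hf' : f a = f b := by simpa using hf
    have hg' : g a = g b := by simpa using hg
    have h' : Function.update f b k = Function.update g b l := h
    have hk : k = l := by
      have := congrFun h' b
      simpa using this
    have ho : ∀ c, c ≠ b → f c = g c := by
      intro c hc
      have := congrFun h' c
      simpa [Function.update_of_ne hc] using this
    have hfg : f = g := by
      funext c
      by_cases hc : c = b
      · subst hc
        rw [← hf', ← hg']
        exact ho a hab
      · exact ho c hc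
    rw [hfg, hk]
  have h2 : (univ : Finset (Fin n → Fin N)).card = N ^ n := by
    simp
  rw [card_product, h2] at h1
  simpa using h1

theorem xyn : XynStmt := by
  classical
  intro n N
  have h0 : Nat.card {f : Fin n → Fin N // ¬ Function.Injective f} =
      (univ.filter fun f : Fin n → Fin N => ¬ Function.Injective f).card := by
    rw [Nat.card_eq_fintype_card, Fintype.card_subtype]
  rw [h0]
  set P : Finset (Fin n × Fin n) := univ.filter fun p : Fin n × Fin n => p.1 ≠ p.2 with hP
  have h1 : (univ.filter fun f : Fin n → Fin N => ¬ Function.Injective f) ⊆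
      P.biUnion fun p => univ.filter fun f : Fin n → Fin N => f p.1 = f p.2 := by
    intro f hf
    have hf' : ¬ Function.Injective f := (mem_filter.1 hf).2
    unfold Function.Injective at hf'
    push Not at hf'
    obtain ⟨a, b, he, hne⟩ := hf'
    exact mem_biUnion.2 ⟨(a, b), by simp [hP, hne], by simp [he]⟩
  have h2 : (univ.filter fun f : Fin n → Fin N => ¬ Function.Injective f).card ≤
      ∑ p ∈ P, (univ.filter fun f : Fin n → Fin N => f p.1 = f p.2).card :=
    (card_le_card h1).trans card_biUnion_le
  calc (univ.filter fun f : Fin n → Fin N => ¬ Function.Injective f).card * N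
      ≤ (∑ p ∈ P, (univ.filter fun f : Fin n → Fin N => f p.1 = f p.2).card) * N :=
        Nat.mul_le_mul_right _ h2
    _ = ∑ p ∈ P, (univ.filter fun f : Fin n → Fin N => f p.1 = f p.2).card * N := by
        rw [Finset.sum_mul]
    _ ≤ ∑ _p ∈ P, N ^ n := by
        refine Finset.sum_le_sum fun p hp => ?_
        exact card_pair p.1 p.2 (by simpa [hP] using hp)
    _ = P.card * N ^ n := by simp
    _ ≤ n ^ 2 * N ^ n := by
        refine Nat.mul_le_mul_right _ ?_
        refine (card_le_univ P).trans ?_
        simp [pow_two]

end Pool.Agent.Helper86.GP
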